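import Mathlib
import Pool.Agent.Helper83.OTDefs
import Pool.Agent.Helper83.OTProof

open MeasureTheory Set Metric
open scoped ENNReal ContDiff Topology
open Pool.Agent.Helper83.OT

namespace Pool.Agent.Results.MP_e338b6_an.FullDimSupport

/-- For every `n ≥ 2` there are smooth compactly supported probability densities `f, g` on `ℝⁿ`
which have an optimal coupling for the distance cost, and for which every optimal coupling has a
closed support of Hausdorff dimension at least `n + 1` in the Euclidean space `ℝⁿ × ℝⁿ`. -/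
theorem result (n : ℕ) (hn : 2 ≤ n) :
    ∃ f g : EuclideanSpace ℝ (Fin n) → ℝ,
      ContDiff ℝ ∞ f ∧ ContDiff ℝ ∞ g ∧ HasCompactSupport f ∧ HasCompactSupport g ∧
      (∀ x, 0 ≤ f x) ∧ (∀ x, 0 ≤ g x) ∧ ∫ x, f x = 1 ∧ ∫ x, g x = 1 ∧
      (∃ π : Measure (EuclideanSpace ℝ (Fin n) × EuclideanSpace ℝ (Fin n)),
        IsOptimal (dens f) (dens g) π) ∧
      ∀ π : Measure (EuclideanSpace ℝ (Fin n) × EuclideanSpace ℝ (Fin n)),
        IsOptimal (dens f) (dens g) π →
          (n : ℝ≥0∞) + 1 ≤ dimH (WithLp.toLp 2 '' π.support) :=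
  Pool.Agent.Helper83.OT.main n hn

end Pool.Agent.Results.MP_e338b6_an.FullDimSupport
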